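import Pool.Agent.Lib.MP_9cc2ee_lc.All.BridgeG

/-!
Every free solvable group of finite rank at least two and class at least two is bi-interpretable,
with parameters, with the standard model of arithmetic.
-/

set_option autoImplicit false

namespace Pool.Agent.Results.MP_9cc2ee_lc.AllClasses

open Pool.Agent.Lib.MP_9cc2ee_lc

theorem result (n d : ℕ) (hn : 2 ≤ n) (hd : 2 ≤ d) :
    BiInterpretable Lgrp Lar
      (FreeGroup (Fin n) ⧸ derivedSeries (FreeGroup (Fin n)) d) ℕ := by
  obtain ⟨m, rfl⟩ := Nat.exists_eq_add_of_le' hn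
  obtain ⟨D, rfl⟩ := Nat.exists_eq_add_of_le' hd
  exact All.biInterp m D

/-- The posed question is the case of class three. -/
theorem posed_question (n : ℕ) (hn : 2 ≤ n) :
    BiInterpretable Lgrp Lar
      (FreeGroup (Fin n) ⧸ derivedSeries (FreeGroup (Fin n)) 3) ℕ :=
  result n 3 hn (by norm_num)

end Pool.Agent.Results.MP_9cc2ee_lc.AllClasses
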